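import Pool.Agent.H18.N6F.Targets

/-!
# FLLV: the Levi elements
-/

set_option autoImplicit false

open Polynomial NumberField IsDedekindDomain Matrix Pool.Agent.H32.QC Pool.Agent.H34.N6
  Pool.Agent.H18.N6F

namespace Pool.Agent.H62.N6F.LLV

/-- the explicit matrix -/
def Lx {F : Type*} [Field F] (g h : Matrix (Fin 3) (Fin 3) F) : Matrix (Fin 7) (Fin 7) F :=
  !![g 0 0, g 0 1, g 0 2, 0, 0, 0, 0;
     g 1 0, g 1 1, g 1 2, 0, 0, 0, 0;
     g 2 0, g 2 1, g 2 2, 0, 0, 0, 0;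
     0, 0, 0, 1, 0, 0, 0;
     0, 0, 0, 0, h 0 0, h 1 0, h 2 0;
     0, 0, 0, 0, h 0 1, h 1 1, h 2 1;
     0, 0, 0, 0, h 0 2, h 1 2, h 2 2]

theorem LL_eq {F : Type*} [Field F] (g : Matrix (Fin 3) (Fin 3) F) : LL g = Lx g g⁻¹ := by
  ext i j
  fin_cases i <;> fin_cases j <;> rfl

/-- the explicit form -/
def Jx {F : Type*} [Field F] (d : F) : Matrix (Fin 7) (Fin 7) F :=
  !![0, 0, 0, 0, 1, 0, 0;
     0, 0, 0, 0, 0, 1, 0;
     0, 0, 0, 0, 0, 0, 1;
     0, 0, 0, d, 0, 0, 0;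
     1, 0, 0, 0, 0, 0, 0;
     0, 1, 0, 0, 0, 0, 0;
     0, 0, 1, 0, 0, 0, 0]

theorem JJ_eq {F : Type*} [Field F] (d : F) : JJ d = Jx d := by
  ext i j
  fin_cases i <;> fin_cases j <;> rfl

theorem rel {F : Type*} [Field F] (g h : Matrix (Fin 3) (Fin 3) F) (H : g * h = 1)
    (a b : Fin 3) : g a 0 * h 0 b + g a 1 * h 1 b + g a 2 * h 2 b = if a = b then 1 else 0 := by
  have := congrFun (congrFun H a) b
  rw [Matrix.mul_apply, Fin.sum_univ_three, Matrix.one_apply] at this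
  exact this

theorem mulx {F : Type*} [Field F] (g h g' h' : Matrix (Fin 3) (Fin 3) F) :
    Lx g h * Lx g' h' = Lx (g * g') (h' * h) := by
  ext i j
  fin_cases i <;> fin_cases j <;>
    simp [Lx, Matrix.mul_apply, Fin.sum_univ_succ] <;> ring

theorem Jmulx {F : Type*} [Field F] (g h : Matrix (Fin 3) (Fin 3) F) (d : F) :
    (Lx g h)ᵀ * Jx d = Jx d * Lx h g := by
  ext i j
  fin_cases i <;> fin_cases j <;>
    simp [Lx, Jx, Matrix.mul_apply, Fin.sum_univ_succ]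

theorem Lx_one {F : Type*} [Field F] : Lx (1 : Matrix (Fin 3) (Fin 3) F) 1 = 1 := by
  ext i j
  fin_cases i <;> fin_cases j <;> simp [Lx]

end Pool.Agent.H62.N6F.LLV

namespace Pool.Agent.H62.N6F

open LLV

/-- FLLV -/
theorem pf_LLV : T_LLV := by
  intro F _ g hg
  have hu : IsUnit g.det := isUnit_iff_ne_zero.2 hg
  have h1 : g * g⁻¹ = 1 := Matrix.mul_nonsing_inv g hu
  have h2 : g⁻¹ * g = 1 := Matrix.nonsing_inv_mul g hu
  have h3 : g⁻¹⁻¹ = g := Matrix.nonsing_inv_nonsing_inv g hu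
  have hprod : LL g * LL g⁻¹ = 1 := by
    rw [LL_eq, LL_eq, h3, mulx, h1, Lx_one]
  refine ⟨fun d => ?_, hprod, Matrix.isUnit_det_of_right_inverse hprod, fun q => ?_,
    fun B i j => ?_, fun E _ ι => ?_⟩
  · rw [LL_eq, JJ_eq, Jmulx, Matrix.mul_assoc, mulx, h2, Lx_one, Matrix.mul_one]
  · ext i j
    unfold blk QL
    rw [LL_eq]
    fin_cases i <;> fin_cases j <;>
      simp [Lx, Matrix.mul_apply, Fin.sum_univ_succ, Matrix.transpose_apply]
  · rw [LL_eq]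
    fin_cases i <;> simp [Lx, Matrix.mul_apply, Fin.sum_univ_succ]
  · have h4 : (g.map ι)⁻¹ = (g⁻¹).map ι := by
      refine Matrix.inv_eq_right_inv ?_
      rw [← Matrix.map_mul, h1]
      exact Matrix.map_one _ (map_zero ι) (map_one ι)
    rw [LL_eq, LL_eq, h4]
    ext i j
    fin_cases i <;> fin_cases j <;> simp [Lx]

end Pool.Agent.H62.N6F
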