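import Pool.Agent.H18.N6F.Targets

/-!
# FFRM: a totally isotropic triple is the beginning of a frame
-/

set_option autoImplicit false

open Polynomial NumberField IsDedekindDomain Matrix Pool.Agent.H32.QC Pool.Agent.H34.N6
  Pool.Agent.H18.N6F

namespace Pool.Agent.H62.N6F.FRM

variable {F : Type} [Field F]

/-- the bilinear form of a matrix -/
def bf (f : Matrix (Fin 7) (Fin 7) F) (x y : Fin 7 → F) : F := x ⬝ᵥ (f *ᵥ y)

theorem bf_add_left (f : Matrix (Fin 7) (Fin 7) F) (x x' y : Fin 7 → F) :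
    bf f (x + x') y = bf f x y + bf f x' y := by
  unfold bf
  rw [add_dotProduct]

theorem bf_add_right (f : Matrix (Fin 7) (Fin 7) F) (x y y' : Fin 7 → F) :
    bf f x (y + y') = bf f x y + bf f x y' := by
  unfold bf
  rw [mulVec_add, dotProduct_add]

theorem bf_smul_left (f : Matrix (Fin 7) (Fin 7) F) (a : F) (x y : Fin 7 → F) :
    bf f (a • x) y = a * bf f x y := by
  unfold bf
  rw [smul_dotProduct, smul_eq_mul]

theorem bf_smul_right (f : Matrix (Fin 7) (Fin 7) F) (a : F) (x y : Fin 7 → F) :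
    bf f x (a • y) = a * bf f x y := by
  unfold bf
  rw [mulVec_smul, dotProduct_smul, smul_eq_mul]

theorem bf_symm {f : Matrix (Fin 7) (Fin 7) F} (hf : f.IsSymm) (x y : Fin 7 → F) :
    bf f x y = bf f y x := by
  unfold bf
  rw [dotProduct_mulVec, ← mulVec_transpose, hf.eq, dotProduct_comm]

theorem bf_zero_right (f : Matrix (Fin 7) (Fin 7) F) (x : Fin 7 → F) : bf f x 0 = 0 := by
  unfold bf
  simp

theorem bf_sum_right (f : Matrix (Fin 7) (Fin 7) F) (x : Fin 7 → F) (y : Fin 3 → Fin 7 → F) :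
    bf f x (∑ k, y k) = ∑ k, bf f x (y k) := by
  rw [Fin.sum_univ_three, Fin.sum_univ_three, bf_add_right, bf_add_right]

/-- the form as a linear map in the second argument -/
def bl (f : Matrix (Fin 7) (Fin 7) F) (x : Fin 7 → F) : (Fin 7 → F) →ₗ[F] F where
  toFun y := bf f x y
  map_add' y y' := bf_add_right f x y y'
  map_smul' a y := bf_smul_right f a x y

theorem bl_apply (f : Matrix (Fin 7) (Fin 7) F) (x y : Fin 7 → F) : bl f x y = bf f x y := rfl

theorem nondeg {f : Matrix (Fin 7) (Fin 7) F} (hdet : f.det ≠ 0) {x : Fin 7 → F}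
    (h : ∀ y, bf f x y = 0) : x = 0 := by
  have h1 : x ᵥ* f = 0 := by
    ext j
    have := h (Pi.single j 1)
    unfold bf at this
    rw [dotProduct_mulVec, dotProduct_single, mul_one] at this
    exact this
  exact Matrix.eq_zero_of_vecMul_eq_zero hdet h1

/-- a dual triple -/
theorem dual {f : Matrix (Fin 7) (Fin 7) F} (hdet : f.det ≠ 0) (b : Fin 3 → Fin 7 → F)
    (hb : LinearIndependent F b) : ∃ c : Fin 3 → Fin 7 → F,
    ∀ i j, bf f (b i) (c j) = if i = j then 1 else 0 := by
  let φ : (Fin 7 → F) →ₗ[F] (Fin 3 → F) := LinearMap.pi fun i => bl f (b i)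
  have hφ : Function.Surjective φ := by
    rw [← LinearMap.range_eq_top]
    by_contra hcon
    obtain ⟨l, hl, hle⟩ := Submodule.exists_le_ker_of_lt_top _ (lt_top_iff_ne_top.2 hcon)
    have h1 : ∑ i, (l fun j => if i = j then 1 else 0) • b i = 0 := by
      apply nondeg hdet
      intro y
      have h2 : φ y ∈ LinearMap.ker l := hle ⟨y, rfl⟩
      rw [LinearMap.mem_ker, LinearMap.pi_apply_eq_sum_univ, Fin.sum_univ_three] at h2
      rw [Fin.sum_univ_three, bf_add_left, bf_add_left, bf_smul_left, bf_smul_left, bf_smul_left]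
      change bf f (b 0) y • _ + bf f (b 1) y • _ + bf f (b 2) y • _ = 0 at h2
      simp only [smul_eq_mul] at h2
      linear_combination h2
    have h3 := Fintype.linearIndependent_iff.1 hb _ h1
    apply hl
    ext i
    have := h3 i
    rw [LinearMap.zero_comp]
    simp only [LinearMap.coe_comp, Function.comp_apply, LinearMap.coe_single, LinearMap.zero_apply]
    rw [← this]
    congr 1
    ext j
    by_cases hij : i = j
    · subst hij
      simp
    · simp [hij, Ne.symm hij]
  choose c hc using fun j : Fin 3 => hφ (fun i => if i = j then 1 else 0)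
  refine ⟨c, fun i j => ?_⟩
  exact congrFun (hc j) i

/-- a vector orthogonal to six vectors -/
theorem orth (f : Matrix (Fin 7) (Fin 7) F) (b c : Fin 3 → Fin 7 → F) :
    ∃ e : Fin 7 → F, e ≠ 0 ∧ (∀ i, bf f (b i) e = 0) ∧ ∀ i, bf f (c i) e = 0 := by
  let ψ : (Fin 7 → F) →ₗ[F] (Fin 3 → F) × (Fin 3 → F) :=
    (LinearMap.pi fun i => bl f (b i)).prod (LinearMap.pi fun i => bl f (c i))
  have hψ : LinearMap.ker ψ ≠ ⊥ := by
    apply LinearMap.ker_ne_bot_of_finrank_lt
    rw [Module.finrank_prod]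
    simp
  obtain ⟨e, he, hne⟩ := Submodule.exists_mem_ne_zero_of_ne_bot hψ
  rw [LinearMap.mem_ker] at he
  have h1 := congrArg Prod.fst he
  have h2 := congrArg Prod.snd he
  exact ⟨e, hne, fun i => congrFun h1 i, fun i => congrFun h2 i⟩

/-- a dual isotropic triple -/
theorem dualIso {f : Matrix (Fin 7) (Fin 7) F} (h2 : (2 : F) ≠ 0) (hs : f.IsSymm)
    (hdet : f.det ≠ 0) (b : Fin 3 → Fin 7 → F)
    (hb : LinearIndependent F b) (hbb : ∀ i j, bf f (b i) (b j) = 0) :
    ∃ c : Fin 3 → Fin 7 → F, (∀ i j, bf f (b i) (c j) = if i = j then 1 else 0) ∧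
      ∀ i j, bf f (c i) (c j) = 0 := by
  obtain ⟨c0, hc0⟩ := dual hdet b hb
  refine ⟨fun j => c0 j + ∑ k, (-(bf f (c0 j) (c0 k) / 2)) • b k, fun i j => ?_, fun i j => ?_⟩
  · rw [bf_add_right, hc0, bf_sum_right]
    simp only [bf_smul_right, hbb, mul_zero, Finset.sum_const_zero, add_zero]
  · have h3 : ∀ (x : Fin 7 → F) (y : Fin 3 → F), bf f (∑ k, y k • b k) x =
        ∑ k, y k * bf f (b k) x := by
      intro x y
      rw [bf_symm hs, bf_sum_right]
      exact Finset.sum_congr rfl fun k _ => by rw [bf_smul_right, bf_symm hs]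
    have h4 : ∀ (x : Fin 7 → F) (y : Fin 3 → F), bf f x (∑ k, y k • b k) =
        ∑ k, y k * bf f x (b k) := by
      intro x y
      rw [bf_sum_right]
      exact Finset.sum_congr rfl fun k _ => by rw [bf_smul_right]
    rw [bf_add_left, bf_add_right, bf_add_right, h3, h3, h4]
    have h5 : ∀ k l : Fin 3, bf f (c0 k) (b l) = if l = k then 1 else 0 := fun k l => by
      rw [bf_symm hs, hc0]
    have h6 : ∀ k : Fin 3, bf f (b k) (∑ k_1, -(bf f (c0 j) (c0 k_1) / 2) • b k_1) = 0 := by
      intro k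
      rw [h4]
      simp only [hbb, mul_zero, Finset.sum_const_zero]
    simp only [h5, h6, hc0, mul_zero, Finset.sum_const_zero, add_zero, mul_ite, mul_one,
      Finset.sum_ite_eq', Finset.mem_univ, if_true]
    rw [bf_symm hs (c0 j) (c0 i)]
    field_simp
    ring

/-- the columns of the frame -/
def cols (b c : Fin 3 → Fin 7 → F) (e : Fin 7 → F) : Fin 7 → Fin 7 → F :=
  ![b 0, b 1, b 2, e, c 0, c 1, c 2]

end Pool.Agent.H62.N6F.FRM

namespace Pool.Agent.H62.N6F

open FRM

/-- FFRM -/
theorem pf_FRM : T_FRM := by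
  intro F _ h2 f hs hdet b hb hbb
  obtain ⟨c, hbc, hcc⟩ := dualIso h2 hs hdet b hb hbb
  obtain ⟨e, he, hbe, hce⟩ := orth f b c
  have hcb : ∀ i j, bf f (c i) (b j) = if j = i then 1 else 0 := fun i j => by
    rw [bf_symm hs, hbc]
  have heb : ∀ i, bf f e (b i) = 0 := fun i => by rw [bf_symm hs, hbe]
  have hec : ∀ i, bf f e (c i) = 0 := fun i => by rw [bf_symm hs, hce]
  have hbb' : ∀ i j, bf f (b i) (b j) = 0 := hbb
  let B : Matrix (Fin 7) (Fin 7) F := fun i j => cols b c e j i
  have hent : Bᵀ * f * B = JJ (bf f e e) := by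
    ext i j
    have h3 : (Bᵀ * f * B) i j = bf f (cols b c e i) (cols b c e j) := by
      rw [Matrix.mul_assoc]
      rfl
    rw [h3]
    fin_cases i <;> fin_cases j <;>
      simp [cols, JJ, hbb', hbc, hbe, hcb, hcc, hce, heb, hec]
  have hB : B.det ≠ 0 := by
    intro h0
    obtain ⟨a, ha, hBa⟩ := Matrix.exists_mulVec_eq_zero_iff.2 h0
    have h4 : JJ (bf f e e) *ᵥ a = 0 := by
      rw [← hent, ← mulVec_mulVec, hBa, mulVec_zero]
    have h5 := fun i => congrFun h4 i
    have e0 := h5 4
    have e1 := h5 5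
    have e2 := h5 6
    have e4 := h5 0
    have e5 := h5 1
    have e6 := h5 2
    have key : ∀ i : Fin 7, (JJ (bf f e e) *ᵥ a) i = ![a 4, a 5, a 6, bf f e e * a 3, a 0, a 1, a 2] i := by
      intro i
      simp only [mulVec, dotProduct, Fin.sum_univ_seven, JJ]
      fin_cases i <;> simp
    have e0' : a 0 = 0 := by simpa using (key 4).symm.trans e0
    have e1' : a 1 = 0 := by simpa using (key 5).symm.trans e1
    have e2' : a 2 = 0 := by simpa using (key 6).symm.trans e2
    have e4' : a 4 = 0 := by simpa using (key 0).symm.trans e4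
    have e5' : a 5 = 0 := by simpa using (key 1).symm.trans e5
    have e6' : a 6 = 0 := by simpa using (key 2).symm.trans e6
    have h6 : a 3 • e = 0 := by
      ext j
      have h7 := congrFun hBa j
      simp only [mulVec, dotProduct, Fin.sum_univ_seven, B, e0', e1', e2', e4', e5', e6', mul_zero,
        zero_add, add_zero] at h7
      change e j * a 3 = 0 at h7
      simpa [mul_comm] using h7
    have h8 : a 3 = 0 := (smul_eq_zero.1 h6).resolve_right he
    apply ha
    ext i
    fin_cases i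
    · exact e0'
    · exact e1'
    · exact e2'
    · exact h8
    · exact e4'
    · exact e5'
    · exact e6'
  have hd : bf f e e ≠ 0 := by
    intro h0
    have h9 : (JJ (bf f e e)).det = 0 := by
      apply Matrix.det_eq_zero_of_column_eq_zero 3
      intro i
      rw [h0]
      fin_cases i <;> simp [JJ]
    rw [← hent, det_mul, det_mul, det_transpose] at h9
    exact (mul_ne_zero (mul_ne_zero hB hdet) hB) h9
  refine ⟨B, bf f e e, isUnit_iff_ne_zero.2 hB, hd, hent, fun i j => ?_⟩
  fin_cases i <;> rfl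

end Pool.Agent.H62.N6F
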